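import Mathlib
import Pool.Agent.H92.SR.Fin1

/-!
# The square-root sum problem: polynomial time on average

One deterministic algorithm decides every instance of the square-root sum problem, and its mean
running time over the lists of `n` numbers from `1` to `N` is polynomial in `n`, `log N`, `log k`,
for all `n`, `N` and `k`.
-/

set_option autoImplicit false

namespace Pool.Agent.H92.Old.AverageCase

open Pool.Agent.H92.SR Pool.Agent.H92.SR.Tr

open Classical in
theorem result : ∃ (c : Prog) (T : List ℕ → ℕ → ℕ) (q : Polynomial ℕ),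
    (∀ (L : List ℕ) (k : ℕ),
      Eval c (encI L k) (bit (decide ((L.map fun a : ℕ => √(a : ℝ)).sum ≤ k))) (T L k)) ∧
    ∀ n N k : ℕ, 1 ≤ N →
      ∑ a ∈ Fintype.piFinset (fun _ : Fin n => Finset.Icc 1 N), T (List.ofFn a) k ≤
        N ^ n * q.eval (n * (Nat.size N + 1) + Nat.size k) := by
  obtain ⟨c, T, q, K, Λ, -, h1, h2, -, -⟩ := fin1
  refine ⟨c, T, q, fun L k => ?_, h2⟩
  have e : decide ((L.map fun a : ℕ => √(a : ℝ)).sum ≤ k) = decide (EE L k ≤ 0) := by
    apply decide_eq_decide.2
    unfold EE
    rw [sub_nonpos]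
  rw [e]
  exact h1 L k

end Pool.Agent.H92.Old.AverageCase
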