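import Pool.Agent.H92.BH.GMain

/-!
For every finite colouring of the primes there is a Bohr neighbourhood of `0` all of whose elements `h`,
outside a set of upper Banach density zero, have the following property: for some colour `i` the pair
`{0, h}` belongs to a family of finite sets `F` such that every subset of `F` is, for infinitely many `N`,
the exact set of the `b` in `F ∪ [0, h]` with `N + b` a prime of colour `i`, and such that every `F` can be
extended within the family by the elements of a set of positive upper density.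
-/

namespace Pool.Agent.Results.MP_8923e7_nt.BohrShattered

open Filter

/-- every subset of `F` is, for infinitely many `N`, the set of all `b` in `F ∪ [0, h]` such that `N + b`
is a prime of colour `i` -/
def Exact {r : ℕ} (c : ℕ → Fin r) (i : Fin r) (h : ℕ) (F : Finset ℕ) : Prop :=
  ∀ F' : Finset ℕ, F' ⊆ F →
    {N : ℕ | ∀ b : ℕ, b ∈ F ∨ b ≤ h → (((N + b).Prime ∧ c (N + b) = i) ↔ b ∈ F')}.Infinite

/-- positive upper density -/
def PosUpperDensity (Y : Set ℕ) : Prop :=
  ∃ δ : ℝ, 0 < δ ∧ ∃ᶠ X : ℕ in atTop, δ * X ≤ ((Y ∩ Set.Iio X).ncard : ℝ)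

/-- for some colour `i`, `{0, h}` belongs to a family of finite sets with the exact pattern property
`Exact`, each of which can be extended within the family by the elements of a set of positive upper
density -/
def Extendable {r : ℕ} (c : ℕ → Fin r) (h : ℕ) : Prop :=
  ∃ (i : Fin r) (𝓕 : Set (Finset ℕ)), {0, h} ∈ 𝓕 ∧
    ∀ F ∈ 𝓕, Exact c i h F ∧ PosUpperDensity {y | insert y F ∈ 𝓕}

lemma extendable_of_famSh {r : ℕ} (c : ℕ → Fin r) (h : ℕ) (hf : Pool.Agent.H92.BH.FamSh c h) :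
    Extendable c h := by
  obtain ⟨i, 𝓕, h0, h1⟩ := hf
  refine ⟨i, 𝓕, h0, fun F hF => ⟨?_, (h1 F hF).2⟩⟩
  intro F' hF'
  refine ((h1 F hF).1 F' hF').mono ?_
  intro N hN b hb
  exact hN b (hb.imp_right fun hb => ⟨Nat.zero_le _, hb⟩)

open Classical in
theorem result {r : ℕ} (c : ℕ → Fin r) :
    ∃ (J : ℕ) (α : Fin J → ℝ) (ρ : ℝ), 0 < ρ ∧
      ∀ ε : ℝ, 0 < ε → ∃ L₀ : ℕ, ∀ L : ℕ, L₀ ≤ L → ∀ a : ℕ,
        (((Finset.Ioc a (a + L)).filter (fun h : ℕ =>
          (∀ i, ∃ m : ℤ, |(h : ℝ) * α i - m| < ρ) ∧ ¬ Extendable c h)).card : ℝ) ≤ ε * L := by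
  obtain ⟨J, α, ρ, hρ, H⟩ := Pool.Agent.H92.BH.bohr_sh c
  refine ⟨J, α, ρ, hρ, fun ε hε => ?_⟩
  obtain ⟨L₀, hL₀⟩ := H ε hε
  refine ⟨L₀, fun L hL a => le_trans ?_ (hL₀ L hL a)⟩
  refine Nat.cast_le.mpr (Finset.card_le_card ?_)
  intro h hh
  rw [Finset.mem_filter] at hh ⊢
  exact ⟨hh.1, hh.2.1, fun hf => hh.2.2 (extendable_of_famSh c h hf)⟩

end Pool.Agent.Results.MP_8923e7_nt.BohrShattered
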