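import Pool.Agent.H92.SR.FinalS
import Pool.Agent.H4.RR.Final

/-!
# The Lehmer inequality for all groups of finite rank and all sums of `s` radicals

Let `G = 𝔾_m`, `K` a number field, `Λ ⊂ K̄*` finitely generated, `S` a finite set of primes, `s, d ≥ 1`. Let `N` be
the field generated over `K` by all roots of unity and all elements `y` with `y^n ∈ Λ`, `n` composed of
primes of `S`. We prove: there is `c > 0` such that for every group `Γ` with `Λ ≤ Γ ≤ Λ_sat` (hence for every
group `Γ` of finite rank, if `Λ` is chosen accordingly) the Lehmer inequality `[K(Γ)(α) : K(Γ)] h(α) ≥ c` holds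
for all `α ∉ Γ_sat` which are sums of `s` algebraic numbers each having a power of degree at most `d`
over `N`; and for all `α` whose norm to `K(Γ)` is of this kind.
-/

set_option autoImplicit false

open NumberField IntermediateField

namespace Pool.Agent.H92.Old.FiniteRankShortSums

section Definitions

variable {K : Type} [Field K]

/-- The field generated over `K` by the elements of `Γ`. -/
noncomputable def fieldOf (Γ : Subgroup (AlgebraicClosure K)ˣ) :
    IntermediateField K (AlgebraicClosure K) :=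
  IntermediateField.adjoin K {y | ∃ γ ∈ Γ, y = (γ : AlgebraicClosure K)}

/-- The saturation of `Γ`. -/
def sat (Γ : Subgroup (AlgebraicClosure K)ˣ) : Set (AlgebraicClosure K)ˣ :=
  {x | ∃ n : ℕ, 1 ≤ n ∧ x ^ n ∈ Γ}

/-- The degree of `α` over `L`. -/
noncomputable def degreeOver (L : IntermediateField K (AlgebraicClosure K))
    (α : AlgebraicClosure K) : ℕ :=
  Module.finrank L L⟮α⟯

/-- The norm of `α` from `L(α)` to `L`, as an element of the algebraic closure. -/
noncomputable def normTo (L : IntermediateField K (AlgebraicClosure K))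
    (α : AlgebraicClosure K) : AlgebraicClosure K :=
  algebraMap L (AlgebraicClosure K) (Algebra.norm L (AdjoinSimple.gen L α))

/-- The field generated over `K` by all roots of unity and all `y` with `y^n ∈ Λ`, `n` composed of
primes in `S`. -/
noncomputable def radField (Λ : Subgroup (AlgebraicClosure K)ˣ) (S : Finset ℕ) :
    IntermediateField K (AlgebraicClosure K) :=
  IntermediateField.adjoin K {y | (∃ n : ℕ, 1 ≤ n ∧ y ^ n = 1) ∨
    ∃ n : ℕ, 1 ≤ n ∧ (∀ q : ℕ, q.Prime → q ∣ n → q ∈ S) ∧ ∃ γ ∈ Λ, y ^ n = (γ : AlgebraicClosure K)}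

/-- `α` is a sum of `s` algebraic numbers, each of which has a power of degree at most `d`
over `N`. -/
def ShortSum (N : IntermediateField K (AlgebraicClosure K)) (s d : ℕ)
    (α : AlgebraicClosure K) : Prop :=
  ∃ a : Fin s → AlgebraicClosure K, α = ∑ i, a i ∧
    ∀ i, ∃ m : ℕ, 1 ≤ m ∧ degreeOver N (a i ^ m) ≤ d

/-- The Lehmer inequality `[K(Γ)(α) : K(Γ)] h(α) ≥ c` for all `α ∉ Γ_sat` which are sums of `s` algebraic
numbers having powers of degree at most `d` over `N`, and for all `α` whose norm to `K(Γ)` is such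
a number outside `Γ_sat`. -/
def LehmerBound [CharZero K] (Γ : Subgroup (AlgebraicClosure K)ˣ)
    (N : IntermediateField K (AlgebraicClosure K)) (s d : ℕ) (c : ℝ) : Prop :=
  (∀ α : (AlgebraicClosure K)ˣ, ShortSum N s d (α : AlgebraicClosure K) → α ∉ sat Γ →
    c ≤ degreeOver (fieldOf Γ) (α : AlgebraicClosure K) *
      absLogHeight₁ (α : AlgebraicClosure K)) ∧
  (∀ α β : (AlgebraicClosure K)ˣ,
    (β : AlgebraicClosure K) = normTo (fieldOf Γ) (α : AlgebraicClosure K) →
    ShortSum N s d (β : AlgebraicClosure K) → β ∉ sat Γ →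
    c ≤ degreeOver (fieldOf Γ) (α : AlgebraicClosure K) *
      absLogHeight₁ (α : AlgebraicClosure K))

end Definitions

open Pool.Agent.H92.SR

lemma radField_le {K : Type} [Field K] (Λ : Subgroup (AlgebraicClosure K)ˣ) (S : Finset ℕ)
    (T : Set (AlgebraicClosure K))
    (hT : T = {x | ∃ u ∈ Λ, x = ((u : (AlgebraicClosure K)ˣ) : AlgebraicClosure K)}) :
    radField Λ (S.filter Nat.Prime) ≤ IntermediateField.adjoin K (SG T (S.filter Nat.Prime)) := by
  unfold radField
  rw [IntermediateField.adjoin_le_iff]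
  rintro y (⟨n, hn, hy⟩ | ⟨n, hn, hnS, γ, hγ, hy⟩)
  · refine IntermediateField.subset_adjoin K _ ⟨1, le_rfl,
      fun q hq hq1 => absurd (Nat.dvd_one.1 hq1) hq.one_lt.ne', y⁻¹, ⟨n, hn, ?_⟩, ?_⟩
    · rw [inv_pow, hy, inv_one]
    · have hy0 : y ≠ 0 := by
        rintro rfl
        rw [zero_pow (by omega)] at hy
        exact zero_ne_one hy
      rw [pow_one, mul_inv_cancel₀ hy0, hT]
      exact ⟨1, Subgroup.one_mem _, by rw [Units.val_one]⟩
  · refine IntermediateField.subset_adjoin K _ ⟨n, hn, hnS, 1, ⟨1, le_rfl, one_pow 1⟩, ?_⟩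
    rw [mul_one, hy, hT]
    exact ⟨γ, hγ, rfl⟩

/-- the degree, in terms of polynomials over the algebraic closure -/
lemma polDeg_of_degreeOver {K : Type} [Field K] [NumberField K]
    (L : IntermediateField K (AlgebraicClosure K)) (F : Set (AlgebraicClosure K))
    (hF : ∀ x ∈ L, x ∈ F) (x : AlgebraicClosure K) (d : ℕ) (hd : degreeOver L x ≤ d) :
    PolDeg F d x := by
  have hint : IsIntegral L x := by
    have h1 : Algebra.IsAlgebraic K (AlgebraicClosure K) := inferInstance
    exact (h1.isAlgebraic x).isIntegral.tower_top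
  refine ⟨(minpoly L x).map (algebraMap L (AlgebraicClosure K)), ?_, ?_, ?_, ?_⟩
  · exact ((minpoly.monic hint).map _).ne_zero
  · rw [Polynomial.natDegree_map]
    refine le_trans (le_of_eq ?_) hd
    exact (IntermediateField.adjoin.finrank hint).symm
  · intro i
    rw [Polynomial.coeff_map]
    exact hF _ ((minpoly L x).coeff i).2
  · rw [Polynomial.eval_map_algebraMap]
    exact minpoly.aeval L x

/-- **The Lehmer inequality for all groups of finite rank and all sums of `s` radicals.** Let `K` be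
a number field, `Λ` a finitely generated subgroup of `K̄*`, `S` a finite set of primes and `s`, `d`
natural numbers. There is `c > 0` such that `LehmerBound Γ N s d c` holds for every group `Γ` between `Λ` and
its saturation, where `N` is the field generated over `K` by the roots of unity and the radicals of
elements of `Λ` with exponents composed of primes of `S`. -/
theorem result (K : Type) [Field K] [NumberField K] (Λ : Subgroup (AlgebraicClosure K)ˣ)
    (hΛ : Λ.FG) (S : Finset ℕ) (s d : ℕ) :
    ∃ c : ℝ, 0 < c ∧ ∀ Γ : Subgroup (AlgebraicClosure K)ˣ, Λ ≤ Γ → (∀ γ ∈ Γ, γ ∈ sat Λ) →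
      LehmerBound Γ (radField Λ S) s d c := by
  classical
  obtain ⟨T, hT⟩ : ∃ T : Set (AlgebraicClosure K),
    T = {x | ∃ u ∈ Λ, x = ((u : (AlgebraicClosure K)ˣ) : AlgebraicClosure K)} := ⟨_, rfl⟩
  obtain ⟨c, hc, h⟩ := final_S K (AlgebraicClosure K) Λ hΛ (S.filter Nat.Prime)
    (fun p hp => (Finset.mem_filter.1 hp).2) s d T hT
  refine ⟨c, hc, fun Γ hΛΓ hΓ => ?_⟩
  have hfil : radField Λ S ≤ radField Λ (S.filter Nat.Prime) := by
    unfold radField
    rw [IntermediateField.adjoin_le_iff]
    rintro y (hy | ⟨n, hn, hnS, γ, hγ, hy⟩)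
    · exact IntermediateField.subset_adjoin K _ (Or.inl hy)
    · exact IntermediateField.subset_adjoin K _ (Or.inr ⟨n, hn,
        fun q hq hqn => Finset.mem_filter.2 ⟨hnS q hq hqn, hq⟩, γ, hγ, hy⟩)
  have hN : ∀ x ∈ radField Λ S, x ∈ ((IntermediateField.adjoin K (SG T (S.filter Nat.Prime)) :
      IntermediateField K (AlgebraicClosure K)) : Set (AlgebraicClosure K)) :=
    fun x hx => radField_le Λ S T hT (hfil hx)
  have hL : ∀ x ∈ fieldOf Γ, x ∈ ((IntermediateField.adjoin K (DG T) :
      IntermediateField K (AlgebraicClosure K)) : Set (AlgebraicClosure K)) := by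
    intro x hx
    have h1 : fieldOf Γ ≤ IntermediateField.adjoin K (DG T) := by
      unfold fieldOf
      rw [IntermediateField.adjoin_le_iff]
      rintro y ⟨γ, hγ, rfl⟩
      obtain ⟨n, hn, hγn⟩ := hΓ γ hγ
      refine IntermediateField.subset_adjoin K _ ⟨n, hn, ?_⟩
      rw [hT]
      exact ⟨γ ^ n, hγn, by rw [Units.val_pow_eq_pow_val]⟩
    exact h1 hx
  have h1 : ∀ α : (AlgebraicClosure K)ˣ, ShortSum (radField Λ S) s d (α : AlgebraicClosure K) →
      α ∉ sat Γ → c ≤ degreeOver (fieldOf Γ) (α : AlgebraicClosure K) *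
        absLogHeight₁ (α : AlgebraicClosure K) := by
    intro α hα hsat
    obtain ⟨a, hsum, ha⟩ := hα
    rw [hsum]
    refine h a ?_ ?_ ?_ _ (polDeg_of_degreeOver _ _ hL _ _ le_rfl)
    · intro i
      obtain ⟨m, hm, hd⟩ := ha i
      exact ⟨m, hm, polDeg_of_degreeOver _ _ hN _ _ hd⟩
    · rw [← hsum]
      exact α.ne_zero
    · rw [← hsum]
      rintro ⟨n, hn, hmem⟩
      rw [hT] at hmem
      obtain ⟨u, hu, hαu⟩ := hmem
      apply hsat
      refine ⟨n, hn, ?_⟩
      have h2 : α ^ n = u := by
        apply Units.ext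
        rw [Units.val_pow_eq_pow_val, hαu]
      rw [h2]
      exact hΛΓ hu
  refine ⟨h1, fun α β hβ hsum hsat => ?_⟩
  have hmem : (β : AlgebraicClosure K) ∈ fieldOf Γ := by
    rw [hβ]
    exact (Algebra.norm (fieldOf Γ) (AdjoinSimple.gen (fieldOf Γ) (α : AlgebraicClosure K))).2
  have hdeg : degreeOver (fieldOf Γ) (β : AlgebraicClosure K) = 1 := by
    have hbot : (fieldOf Γ)⟮(β : AlgebraicClosure K)⟯ = ⊥ := by
      rw [adjoin_simple_eq_bot_iff, IntermediateField.mem_bot]
      exact ⟨⟨β, hmem⟩, rfl⟩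
    unfold degreeOver
    rw [hbot]
    exact IntermediateField.finrank_bot
  have h2 := h1 β hsum hsat
  rw [hdeg, Nat.cast_one, one_mul, hβ] at h2
  exact h2.trans (Pool.Agent.H4.RR.norm_height_le K (fieldOf Γ) (α : AlgebraicClosure K))

end Pool.Agent.H92.Old.FiniteRankShortSums
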