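import Pool.Agent.H54.IX.Fin

/-!
# Interval exchange transformations and the Farrell-Jones conjecture for A-theory

A permutation `h` of the real line is piecewise isometric if it is isometric on each component of the complement of a
finite set (no condition at the points of this set). The piecewise isometric permutations of bounded support form a
group. It contains the group of all interval exchange transformations of `[0, 1)`, also with flips. Let `H` be a subgroup.
Then `H` belongs to every class `C` of groups which contains the finite groups and the infinite cyclic group, is closed
under isomorphism, subgroups, finite direct products, finite free products, overgroups of finite index and directed
colimits, and has the extension property. The class of the groups satisfying the Farrell-Jones conjecture for A-theory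
with coefficients and finite wreath products is such a class.

Proof. The action on the one-sided germs of the line gives a homomorphism to the group of interval exchange
transformations without flips, with locally finite kernel; so we consider interval exchange transformations of `[0, T)`
and, by the directed unions, a finitely generated group of them.

Tokens. Let `TG` be the group generated by elements `r(x, y)` for the pairs of tokens of different lengths, with the
relations `r(x, y) r(y, x) = 1`, `r(x, y) r(z, w) = r(z, w) r(x, y)` for different tokens `x, y, z, w` and
`r(x, y) r(x, z) r(y, z) = r(y, z) r(x, z) r(x, y)`; let `GT` be its semidirect product with the group of the permutations
of the tokens which preserve the lengths; put `r(x, y) = (x y)` for tokens of the same length. Every permutation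
of a list of tokens has a well defined value `R(W, W')` in `GT`, the product of the `r(x, y)` for the exchanges of
neighbours. `GT` is in the class: `TG` is defined for every graph on the tokens, and if an edge `x y` is added to the
graph the group is an HNN extension whose edge groups are mapped injectively to the group without the token `x`; the
kernel of the homomorphism of the HNN extension to a group in the class is free by the action on the Bass-Serre tree.

Levels. Choose finitely many positive lengths, independent over the rational numbers, such that the differences of the
break points of the generators are sums of these lengths (`Pool.Agent.H65.IX`), and a list of tokens of total length `T`.
A generator is given by two coarse lists of intervals and has a value in `GT`. It does not depend on how the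
intervals are filled by tokens, as the sums of lengths are unique. Cut the tokens in finer and finer tokens of
independent lengths, such that the differences of the points in the orbits of the break points become sums of lengths.
This gives compatible homomorphisms of the free group to the groups `GT` of the levels. `GT` acts on the points of the
tokens, so a word in a kernel acts trivially on `[0, T)`. Conversely, if the left endpoints of a list `U` contain a
finite set `P` given by the word `p`, then the value of the word is `R(W₀, U') R(U, W₀)` where `U'` is the image of `U`
under `p`. If `p` acts trivially, `U' = U` and the value is trivial. Hence the group is a directed colimit of subgroups
of the groups `GT` of the levels.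
-/

set_option autoImplicit false

namespace Pool.Agent.Results.MP_2a547c_gt.IntervalExchanges

open Pool.Agent.H98.FJ

/-- isometric on each component of the complement of some finite set -/
def PiecewiseIsometric (h : ℝ → ℝ) : Prop :=
  ∃ P : Finset ℝ, ∀ x y : ℝ, x < y → (∀ p ∈ P, ¬ (x ≤ p ∧ p ≤ y)) → |h y - h x| = y - x

/-- the identity outside a bounded set -/
def BoundedSupport (h : ℝ → ℝ) : Prop := ∃ R : ℝ, ∀ x : ℝ, R ≤ |x| → h x = x

theorem result (C : (G : Type) → [Group G] → Prop) (hC : Inherits C) (hE : Extension C)
    (H : Subgroup (Equiv.Perm ℝ))
    (hH : ∀ h ∈ H, PiecewiseIsometric h ∧ BoundedSupport h) : C H :=
  Pool.Agent.H54.IX.main_all hC hE H hH

end Pool.Agent.Results.MP_2a547c_gt.IntervalExchanges
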