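import Pool.Agent.H92.ST.MainZ

/-!
Let `k ≥ 1`.  For every finite colouring of the primes there is a Bohr neighbourhood `B` of `0` in the
integers such that almost all `k`-tuples `a` of elements of `B` (all except a set of upper Banach density
zero in `ℤ ^ k`) have the following property: for some colour `i` the set `A = {0, a_1, ..., a_k}` belongs to
a family of finite sets of integers, the members `F` of which contain `A`, satisfy the prime tuples
conjecture in exact form (every subset `F'` of `F` is, for infinitely many `N`, the exact set of the `b` in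
`F` with `N + b` a prime of colour `i`, and at the same time there is no prime of colour `i` between
`N + e_0` and `N + e_1`, between `N + e_2` and `N + e_3`, ..., where `e_0 < e_1 < e_2 < ...` are the elements
of `A`) and can be extended within the family by the elements of a set of positive upper density.
-/

namespace Pool.Agent.Results.MP_8923e7_nt.TupleFamilies

open Filter

/-- the Bohr neighbourhood of `0` given by the frequencies `α` and the radius `ρ` -/
def Bohr {J : ℕ} (α : Fin J → ℝ) (ρ : ℝ) : Set ℤ :=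
  {h | ∀ i, ∃ m : ℤ, |(h : ℝ) * α i - m| < ρ}

/-- `b` is not in `A`, an odd number of elements of `A` are smaller than `b` and at least one is larger: if
`e_0 < e_1 < ...` are the elements of `A`, then `b` lies strictly between `e_(2t)` and `e_(2t+1)` for some
`t` -/
def InGap (A : Finset ℤ) (b : ℤ) : Prop :=
  b ∉ A ∧ Odd (A.filter (fun x => x < b)).card ∧ ∃ x ∈ A, b < x

/-- every subset `F'` of `F` is, for infinitely many `N`, the set of all `b` in `F` or in a gap of `A` such
that `N + b` is a prime of colour `i` -/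
def Exact {r : ℕ} (c : ℕ → Fin r) (i : Fin r) (A F : Finset ℤ) : Prop :=
  ∀ F' : Finset ℤ, F' ⊆ F → {N : ℕ | ∀ b : ℤ, (b ∈ F ∨ InGap A b) →
    ((((N : ℤ) + b).toNat.Prime ∧ c ((N : ℤ) + b).toNat = i) ↔ b ∈ F')}.Infinite

/-- positive upper density of a set of natural numbers -/
def PosUpperDensity (Y : Set ℕ) : Prop :=
  ∃ δ : ℝ, 0 < δ ∧ ∃ᶠ X : ℕ in atTop, δ * X ≤ ((Y ∩ Set.Iio X).ncard : ℝ)

/-- for some colour `i`, the set `A` belongs to a family of finite sets which contain `A`, have the exact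
pattern property `Exact`, and can be extended within the family by the elements of a set of positive upper
density -/
def Extendable {r : ℕ} (c : ℕ → Fin r) (A : Finset ℤ) : Prop :=
  ∃ (i : Fin r) (𝓕 : Set (Finset ℤ)), A ∈ 𝓕 ∧
    ∀ F ∈ 𝓕, A ⊆ F ∧ Exact c i A F ∧ PosUpperDensity {y : ℕ | insert (y : ℤ) F ∈ 𝓕}

open Classical in
theorem result {r : ℕ} (c : ℕ → Fin r) (k : ℕ) (hk : 1 ≤ k) :
    ∃ (J : ℕ) (α : Fin J → ℝ) (ρ : ℝ), 0 < ρ ∧
      (∃ p : ℝ, 0 < p ∧ ∃ X₀ : ℕ, ∀ X : ℕ, X₀ ≤ X → ∀ z : Fin k → ℤ,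
        p * (X : ℝ) ^ k ≤ ((Fintype.piFinset (fun j => Finset.Ioc (z j) (z j + X))).filter
          (fun a => ∀ j, a j ∈ Bohr α ρ)).card) ∧
      ∀ ε : ℝ, 0 < ε → ∃ X₀ : ℕ, ∀ X : ℕ, X₀ ≤ X → ∀ z : Fin k → ℤ,
        (((Fintype.piFinset (fun j => Finset.Ioc (z j) (z j + X))).filter
          (fun a => (∀ j, a j ∈ Bohr α ρ) ∧
            ¬ Extendable c (insert 0 (Finset.univ.image a)))).card : ℝ) ≤ ε * (X : ℝ) ^ k := by
  obtain ⟨J, α, ρ, hρ, H⟩ := Pool.Agent.H92.ST.bohr_stZ c k hk
  refine ⟨J, α, ρ, hρ, ?_, fun ε hε => ?_⟩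
  · obtain ⟨p, hp, X₀, h⟩ := Pool.Agent.H74.BT.boh_density_pow α hρ k
    exact ⟨p, hp, X₀, fun X hX z => h X hX z⟩
  · obtain ⟨X₀, h⟩ := H ε hε
    exact ⟨X₀, fun X hX z => h X hX z⟩

end Pool.Agent.Results.MP_8923e7_nt.TupleFamilies
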